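import Mathlib
import Pool.Agent.H24.MultinomialDefs
import Pool.Agent.H24.MultinomialGrowth

/-!
# All three collision statistics grow faster than every power of `n`

* `1/6 + 1/6 = 1/4 + 1/12` gives `M (n-5) ≤ D n`, and `M` is large because products of factorials
  over different sets of primes are different.
* For `mu`, the values `(n!/L) * u` with `L` the product of `p!` over the primes `p ≤ y` and `u` a
  product of `k` different primes `≤ y` have few different pair sums, so some sum is popular.
-/

open Filter Real
open Pool.Agent.H24.MultinomialDefs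

namespace Pool.Agent.Results.MP_675def_co.SuperpolynomialGrowth

/-- The three statistics grow at least like `exp (c √(n / log n))`, `exp (c √(n / log n))` and
`exp (c (n / (log n) ^ 3) ^ (1/4))`; in particular the ratio of each of them to the known
lower-bound scale tends to infinity. -/
theorem result :
    (∃ c : ℝ, 0 < c ∧ ∀ᶠ n : ℕ in atTop,
      rexp (c * √(n / log n)) ≤ (C n : ℝ) ∧
      rexp (c * √(n / log n)) ≤ (D n : ℝ) ∧
      rexp (c * (n / log n ^ 3) ^ (1 / 4 : ℝ)) ≤ (mu n : ℝ)) ∧
    Tendsto (fun n : ℕ => (C n : ℝ) / ((n : ℝ) ^ 2 * log n)) atTop atTop ∧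
    Tendsto (fun n : ℕ => (D n : ℝ) / ((n : ℝ) ^ (3 / 2 : ℝ) * √(log n))) atTop atTop ∧
    Tendsto (fun n : ℕ => (mu n : ℝ) / √(n * log n)) atTop atTop :=
  Pool.Agent.H24.MultinomialGrowth.main

end Pool.Agent.Results.MP_675def_co.SuperpolynomialGrowth
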